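import Mathlib
import Pool.Agent.Helper680.SigT
import Pool.Agent.Helper680.SigE

set_option autoImplicit false

/-!
# The integers `s` with `σ(s) = σ(q) + σ(s - q)`: logarithmic density

`S` has a logarithmic density `δ > 1/3`; it is the lower asymptotic density of `S` and the supremum
of the densities of the periodic subsets of `S`; and there is a zero-one law for `δ = 1`.
Mertens' theorem is helper256's (`Pool.Agent.Helper256.KM.Mertens`).
-/

namespace Pool.Agent.Results.MP_f926e9_nt.LogDensity

open Filter Topology Pool.Agent.Helper680.SigA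

/-- The set `S` of the question. -/
def S : Set ℕ := {s | 2 ≤ s ∧ ∃ q : ℕ, 1 ≤ q ∧ q < s ∧
  ArithmeticFunction.sigma 1 s = ArithmeticFunction.sigma 1 q + ArithmeticFunction.sigma 1 (s - q)}

open Classical in
/-- the number of elements of `A` in `1, …, N` -/
noncomputable def count (A : Set ℕ) (N : ℕ) : ℝ :=
  (((Finset.Icc 1 N).filter (fun n => n ∈ A)).card : ℝ)

open Classical in
/-- the sum of `1 / n` over the elements of `A` in `1, …, N` -/
noncomputable def harm (A : Set ℕ) (N : ℕ) : ℝ :=
  ∑ n ∈ (Finset.Icc 1 N).filter (fun n => n ∈ A), (1 : ℝ) / n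

/-- `A` has logarithmic density `d` -/
def HasLogDensity (A : Set ℕ) (d : ℝ) : Prop :=
  Tendsto (fun N : ℕ => harm A N / Real.log N) atTop (𝓝 d)

/-- `A` has asymptotic density `d` -/
def HasDensity (A : Set ℕ) (d : ℝ) : Prop := Tendsto (fun N : ℕ => count A N / N) atTop (𝓝 d)

/-- the lower asymptotic density of `A` -/
noncomputable def lowerDensity (A : Set ℕ) : ℝ := liminf (fun N : ℕ => count A N / N) atTop

/-- The multiples `a t` of `a` with `t` free of prime factors `≤ y`. For `1 ≤ a ≤ y` this set has
density `φ(y!) / (y! a)`. -/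
def roughMultiples (a y : ℕ) : Set ℕ := {n | ∃ t : ℕ, n = a * t ∧ t.Coprime y.factorial}

theorem cnt_card (A : Set ℕ) (N : ℕ) : cnt A N = count A N := by
  classical
  unfold cnt ind count
  rw [Finset.card_filter]
  push_cast
  refine Finset.sum_congr rfl fun n _ => ?_
  rw [Set.indicator_apply]

theorem hsum_eq (A : Set ℕ) (N : ℕ) : hsum A N = harm A N := by
  classical
  unfold hsum ind harm
  rw [Finset.sum_filter]
  refine Finset.sum_congr rfl fun n _ => ?_
  rw [Set.indicator_apply]
  split_ifs <;> simp

theorem result : ∃ δ : ℝ, 1 / 3 < δ ∧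
    -- `δ` is the logarithmic density and the lower asymptotic density of `S`
    HasLogDensity S δ ∧ lowerDensity S = δ ∧
    -- so if `S` has an asymptotic density, it is `δ`
    (∀ d : ℝ, HasDensity S d → d = δ) ∧
    -- `δ` is the supremum of the densities of the periodic subsets of `S`
    (∀ ε > 0, ∃ M : ℕ, 0 < M ∧ ∃ A ⊆ S, (∀ n ≥ 1, n ∈ A ↔ n + M ∈ A) ∧
      δ - ε < count A M / M) ∧
    (∀ M : ℕ, 0 < M → ∀ A ⊆ S, (∀ n ≥ 1, n ∈ A ↔ n + M ∈ A) → count A M / M ≤ δ) ∧
    -- zero-one law: `S` has asymptotic density `1` as soon as its relative lower logarithmic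
    -- density in the sets `roughMultiples a y` is bounded below by a positive constant
    (HasDensity S 1 ↔ ∃ c > 0, ∀ a y : ℕ, 1 ≤ a → a ≤ y → ∀ᶠ N : ℕ in atTop,
      c * ((y.factorial.totient : ℝ) / y.factorial / a) ≤
        harm (S ∩ roughMultiples a y) N / Real.log N) := by
  have hS : Rough S := SS_rough
  have hlim : lowerDensity S = del S := by
    have h := liminf_eq hS
    simp only [cnt_card] at h
    exact h
  refine ⟨del S, ?_, ?_, hlim, ?_, ?_, ?_, ?_⟩
  · obtain ⟨hsub, a, ha, hta⟩ := sound primeList_prime table table_ok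
    have h1 : a ≤ del S := ha.le_del hS hsub
    have h2 : (333333334 : ℝ) ≤ (tot table : ℕ) := by exact_mod_cast table_tot
    push_cast at hta
    linarith
  · have h := log_density hS
    simp only [hsum_eq] at h
    exact h
  · intro d hd
    rw [← hlim]
    exact hd.liminf_eq.symm
  · intro ε hε
    obtain ⟨y, hy⟩ := exists_dy (S := S) ε hε
    refine ⟨y.factorial * y.factorial, Nat.mul_pos (Nat.factorial_pos y) (Nat.factorial_pos y),
      {n | n ∈ Sy S y ∧ 1 ≤ n}, ?_, ?_, ?_⟩
    · rintro n ⟨h1, h2⟩
      exact Sy_sub hS y n h2 h1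
    · intro n hn
      constructor
      · rintro ⟨h1, _⟩
        exact ⟨(Sy_period hS y n).1 h1, by omega⟩
      · rintro ⟨h1, _⟩
        exact ⟨(Sy_period hS y n).2 h1, hn⟩
    · unfold dy at hy
      rw [← cnt_card]
      have hsub : ∀ n, 1 ≤ n → n ∈ Sy S y → n ∈ {n | n ∈ Sy S y ∧ 1 ≤ n} := fun n hn h => ⟨h, hn⟩
      exact hy.trans_le (div_le_div_of_nonneg_right (cnt_mono hsub _) (by positivity))
  · intro M hM A hA hper
    have h1 := HasD.periodic A M hM hper
    have h2 := h1.le_del hS (fun n _ hn => hA hn)
    rw [cnt_card] at h2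
    exact h2
  · have h1 : HasDensity S 1 ↔ del S = 1 := by
      constructor
      · intro h
        rw [← hlim]
        exact h.liminf_eq
      · intro h
        have h2 : ∀ᶠ N : ℕ in atTop, count S N / N ≤ 1 := by
          filter_upwards with N
          rw [← cnt_card]
          exact div_le_one_of_le₀ (cnt_le S N) (by positivity)
        unfold HasDensity
        rw [Metric.tendsto_nhds]
        intro ε hε
        filter_upwards [lower_ge hS (ε / 2) (by positivity), h2, eventually_ge_atTop 1] with N h3 h4 h5
        have hN : (0 : ℝ) < N := by exact_mod_cast h5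
        rw [h, cnt_card, ← le_div_iff₀ hN] at h3
        rw [Real.dist_eq, abs_lt]
        constructor <;> linarith
    rw [h1, zero_one hS]
    refine exists_congr fun c => and_congr_right fun _ => forall_congr' fun a => forall_congr' fun y =>
      forall_congr' fun _ => forall_congr' fun _ => ?_
    refine eventually_congr ?_
    filter_upwards [eventually_ge_atTop 3] with N hN
    have hl : 0 < Real.log N := Real.log_pos (by exact_mod_cast (by omega : 1 < N))
    rw [hsum_eq, le_div_iff₀ hl]
    exact Iff.rfl

end Pool.Agent.Results.MP_f926e9_nt.LogDensity
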